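import Pool.Agent.Q266.VG.Stm

set_option autoImplicit false

namespace Pool.Agent.Q254.VG

open Pool.Agent.Q266.VG
open scoped commutatorElement

theorem lone : S_LONE := by
  classical
  intro w hw
  show w ∈ (⊤ : Subgroup F).lowerCentralSeries 1
  rw [Subgroup.top_lowerCentralSeries_one]
  obtain ⟨ε, hε⟩ : ∃ ε : F2 →* Multiplicative ℤ, ∀ i, ε (FreeGroup.of i) = Multiplicative.ofAdd 1 :=
    ⟨FreeGroup.lift fun _ => Multiplicative.ofAdd 1, fun i => by simp⟩
  have hV : verbal V F2 ≤ ε.ker := by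
    rw [verbal, Subgroup.closure_le]
    rintro g ⟨v, hv, φ, rfl⟩
    have h : V ≤ (ε.comp φ).ker := by
      rw [V, Subgroup.commutator_le]
      intro a _ b _
      rw [MonoidHom.mem_ker, map_commutatorElement, commutatorElement_eq_one_iff_mul_comm]
      exact mul_comm _ _
    exact h hv
  obtain ⟨θ, hθ⟩ : ∃ θ : F →* Multiplicative (ℕ →₀ ℤ),
      ∀ n, θ (FreeGroup.of n) = Multiplicative.ofAdd (Finsupp.single n 1) :=
    ⟨FreeGroup.lift fun n => Multiplicative.ofAdd (Finsupp.single n 1), fun n => by simp⟩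
  have hk : ∀ k : ℕ, Multiplicative.toAdd (θ w) k = 0 := by
    intro k
    obtain ⟨φ, hφ⟩ : ∃ φ : F →* F2, ∀ n, φ (FreeGroup.of n) =
        if n = k then FreeGroup.of 0 else 1 :=
      ⟨FreeGroup.lift fun n => if n = k then FreeGroup.of 0 else 1, fun n => by simp⟩
    have h1 : ε (φ w) = 1 := hV (hw φ)
    have h2 : (AddMonoidHom.toMultiplicative (Finsupp.applyAddHom k)).comp θ = ε.comp φ := by
      refine FreeGroup.ext_hom _ _ fun n => ?_
      rw [MonoidHom.comp_apply, MonoidHom.comp_apply, hθ, hφ]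
      by_cases h : n = k
      · rw [if_pos h, hε, h]
        simp
      · rw [if_neg h, map_one]
        simp [Finsupp.single_apply, h]
    have h3 : (AddMonoidHom.toMultiplicative (Finsupp.applyAddHom k)) (θ w) = 1 := by
      rw [← MonoidHom.comp_apply, h2]; exact h1
    exact h3
  have hθw : θ w = 1 := by
    have : Multiplicative.toAdd (θ w) = 0 := Finsupp.ext hk
    exact this
  obtain ⟨ρ, hρ⟩ : ∃ ρ : (ℕ →₀ ℤ) →+ Additive (Abelianization F),
      ∀ n, ρ (Finsupp.single n 1) = Additive.ofMul (Abelianization.of (FreeGroup.of n)) :=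
    ⟨Finsupp.liftAddHom fun n => zmultiplesHom _ (Additive.ofMul (Abelianization.of (FreeGroup.of n))),
      fun n => by simp⟩
  have h4 : (AddMonoidHom.toMultiplicativeLeft ρ).comp θ = Abelianization.of := by
    refine FreeGroup.ext_hom _ _ fun n => ?_
    rw [MonoidHom.comp_apply, hθ]
    show Additive.toMul (ρ (Finsupp.single n 1)) = _
    rw [hρ]
    rfl
  have h5 : Abelianization.of w = 1 := by
    rw [← h4, MonoidHom.comp_apply, hθw, map_one]
  exact (QuotientGroup.eq_one_iff w).1 h5

end Pool.Agent.Q254.VG
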