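import Pool.Agent.Q266.VG.Stm

set_option autoImplicit false

namespace Pool.Agent.Q254.VG

open Pool.Agent.Q266.VG

theorem sym : S_SYM := by
  classical
  intro ι L _ μ Φ hμ h7 s hcard hev
  have : Fact (Nat.Prime 7) := ⟨by norm_num⟩
  obtain ⟨P, hPdef⟩ : ∃ P : MvPolynomial (Fin 3 × ℕ) (ZMod 7), P = (s.map fun t =>
    MvPolynomial.monomial (Multiset.toFinsupp (μ t.2)) (t.1 : ZMod 7)).sum := ⟨_, rfl⟩
  -- evaluation
  have hevP : ∀ v : Fin 3 × ℕ → ZMod 7, MvPolynomial.eval v P = 0 := by
    intro v
    rw [← hev v, hPdef, map_list_sum, List.map_map]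
    congr 1
    refine List.map_congr_left fun t _ => ?_
    simp only [Function.comp_apply, MvPolynomial.eval_monomial]
    congr 1
    rw [Finset.prod_multiset_map_count, Finsupp.prod, Multiset.toFinsupp_support]
    refine Finset.prod_congr rfl fun z _ => ?_
    rw [Multiset.toFinsupp_apply]
  -- degrees
  have hdeg : P ∈ MvPolynomial.restrictDegree (Fin 3 × ℕ) (ZMod 7) 6 := by
    rw [hPdef]
    refine list_sum_mem fun x hx => ?_
    rw [List.mem_map] at hx
    obtain ⟨t, ht, rfl⟩ := hx
    rw [MvPolynomial.mem_restrictDegree]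
    intro m hm i
    have hm2 := MvPolynomial.support_monomial_subset hm
    rw [Finset.mem_singleton] at hm2
    rw [hm2, Multiset.toFinsupp_apply]
    exact (Multiset.count_le_card _ _).trans (hcard t ht)
  have hP0 : P = 0 := by
    obtain ⟨Z, q, hq⟩ := MvPolynomial.exists_finset_rename P
    have hq0 : q = 0 := by
      refine MvPolynomial.eq_zero_of_eval_zero_at_prod_finset q (fun _ => Finset.univ) ?_ ?_
      · intro i
        have h1 : MvPolynomial.degreeOf (i : Fin 3 × ℕ) P = MvPolynomial.degreeOf i q := by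
          rw [hq]
          exact MvPolynomial.degreeOf_rename_of_injective Subtype.val_injective i
        rw [← h1, Finset.card_univ, ZMod.card]
        refine Nat.lt_succ_of_le ?_
        rw [MvPolynomial.degreeOf_le_iff]
        intro m hm
        exact (MvPolynomial.mem_restrictDegree (Fin 3 × ℕ) P 6).1 hdeg m hm i
      · intro x _
        have h2 := hevP (fun z => if h : z ∈ Z then x ⟨z, h⟩ else 0)
        rw [hq, MvPolynomial.eval_rename] at h2
        have h3 : ((fun z => if h : z ∈ Z then x ⟨z, h⟩ else 0) ∘ (Subtype.val : Z → Fin 3 × ℕ)) = x := by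
          funext z
          simp
        rw [h3] at h2
        exact h2
    rw [hq, hq0, map_zero]
  -- the formal sum
  obtain ⟨p, hp⟩ : ∃ p : Multiset (Fin 3 × ℕ) →₀ ℤ,
    p = (s.map fun t => Finsupp.single (μ t.2) t.1).sum := ⟨_, rfl⟩
  have hpc : ∀ m, ((p m : ℤ) : ZMod 7) = 0 := by
    intro m
    have h1 : MvPolynomial.coeff (Multiset.toFinsupp m) P = ((p m : ℤ) : ZMod 7) := by
      rw [hPdef, hp]
      clear hPdef hp hevP hdeg hP0 hcard hev
      induction s with
      | nil => simp
      | cons t s ih =>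
        rw [List.map_cons, List.sum_cons, List.map_cons, List.sum_cons, MvPolynomial.coeff_add,
          ih, Finsupp.add_apply, MvPolynomial.coeff_monomial, Finsupp.single_apply]
        push_cast
        congr 1
        by_cases h : μ t.2 = m
        · simp [h]
        · have h' : ¬ Multiset.toFinsupp (μ t.2) = Multiset.toFinsupp m :=
            fun h2 => h (Multiset.toFinsupp.injective h2)
          simp [h, h']
    rw [← h1, hP0, MvPolynomial.coeff_zero]
  obtain ⟨ψ, hψ⟩ : ∃ ψ : Multiset (Fin 3 × ℕ) → L,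
      (∀ i, Φ i = ψ (μ i)) ∧ ∀ m, (7 : ℤ) • ψ m = 0 := by
    refine ⟨fun m => if h : ∃ i, μ i = m then Φ h.choose else 0, fun i => ?_, fun m => ?_⟩
    · have h : ∃ j, μ j = μ i := ⟨i, rfl⟩
      simp only [h, dif_pos]
      exact hμ _ _ h.choose_spec.symm
    · by_cases h : ∃ i, μ i = m
      · simp only [h, dif_pos]; exact h7 _
      · simp only [h, dif_neg, not_false_eq_true, smul_zero]
  have hsum : (s.map fun t => t.1 • Φ t.2).sum = Finsupp.linearCombination ℤ ψ p := by
    rw [hp, map_list_sum, List.map_map]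
    congr 1
    refine List.map_congr_left fun t _ => ?_
    simp only [Function.comp_apply, Finsupp.linearCombination_single]
    rw [hψ.1]
  rw [hsum, Finsupp.linearCombination_apply, Finsupp.sum]
  refine Finset.sum_eq_zero fun m _ => ?_
  obtain ⟨k, hk⟩ := (ZMod.intCast_zmod_eq_zero_iff_dvd (p m) 7).1 (hpc m)
  rw [hk]
  push_cast
  rw [mul_comm, mul_smul, hψ.2, smul_zero]

end Pool.Agent.Q254.VG
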